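import Pool.Agent.H65.AD.TargetsF

/-!
# BUM: a smooth weight (board adm_modules)
-/

set_option autoImplicit false

open MeasureTheory Set Filter
open scoped Real

namespace Pool.Agent.H59.AD

open Pool.Agent.H31.CN Pool.Agent.H95.AD Pool.Agent.H65.AD

theorem pf_BUM : T_BUM := by
  let f : ContDiffBump (3 / 4 : ℝ) := ⟨1 / 8, 1 / 4, by norm_num, by norm_num⟩
  have hz : ∀ u, u ∉ Icc (1 / 2 : ℝ) 1 → f u = 0 := by
    intro u hu
    have h1 : u ∉ Function.support f := by
      rw [f.support_eq, Metric.mem_ball, Real.dist_eq, abs_lt]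
      intro h
      apply hu
      have h2 : f.rOut = 1 / 4 := rfl
      rw [h2] at h
      constructor <;> linarith [h.1, h.2]
    simpa [Function.mem_support] using h1
  refine ⟨f, f.contDiff, hz, fun u => ⟨f.nonneg, f.le_one⟩, ?_⟩
  rw [setIntegral_eq_integral_of_forall_compl_eq_zero]
  · exact f.integral_pos
  · intro u hu
    apply hz
    intro h
    apply hu
    have := h.1
    show (0 : ℝ) < u
    linarith

end Pool.Agent.H59.AD
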