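import Pool.Agent.H95.AD.TargetsU

/-!
# K0D: differences of the Bessel function (board adu_modules)
-/

set_option autoImplicit false

open MeasureTheory Set Filter
open scoped Real

namespace Pool.Agent.H59.AD

open Pool.Agent.H31.CN Pool.Agent.H95.AD

theorem pf_K0D (hK0 : T_K0) : T_K0D := by
  have hπ : (3 : ℝ) < π := Real.pi_gt_three
  have hδ : (0 : ℝ) < 1 - 3 / π := by
    rw [sub_pos, div_lt_one (by linarith)]
    exact hπ
  refine ⟨1 / (1 - 3 / π), by positivity, ?_⟩
  intro x D hx hD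
  have hD' : (1 : ℝ) ≤ D := by exact_mod_cast hD
  have hs : 0 < Real.sqrt D := Real.sqrt_pos.2 (by linarith)
  have hs1 : Real.sqrt D ≤ Real.sqrt ((D : ℝ) + 1) := Real.sqrt_le_sqrt (by linarith)
  set y := π * x * Real.sqrt D with hy
  set y' := π * x * Real.sqrt ((D : ℝ) + 1) with hy'
  set w := 3 * x * Real.sqrt D with hw
  have hy0 : 0 < y := by positivity
  have hw0 : 0 < w := by positivity
  have hyy : y ≤ y' := mul_le_mul_of_nonneg_left hs1 (by positivity)
  have hy0' : 0 < y' := lt_of_lt_of_le hy0 hyy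
  obtain ⟨hi, _, _, hmono⟩ := hK0 y hy0
  obtain ⟨hi', _, _, _⟩ := hK0 y' hy0'
  obtain ⟨hiw, _, hbw, _⟩ := hK0 w hw0
  -- the difference of the arguments
  have hdiff : y' - y ≤ y / (2 * D) := by
    have h1 : (Real.sqrt ((D : ℝ) + 1) - Real.sqrt D) * (2 * Real.sqrt D) ≤ 1 := by
      have e1 : Real.sqrt ((D : ℝ) + 1) ^ 2 = D + 1 := Real.sq_sqrt (by linarith)
      have e2 : Real.sqrt D ^ 2 = D := Real.sq_sqrt (by linarith)
      nlinarith [sq_nonneg (Real.sqrt ((D : ℝ) + 1) - Real.sqrt D)]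
    have h2 : Real.sqrt D * Real.sqrt D = D := Real.mul_self_sqrt (by linarith)
    have h3 : (y' - y) * (2 * D) ≤ y := by
      have h4 : (y' - y) * (2 * D) =
          π * x * Real.sqrt D * ((Real.sqrt ((D : ℝ) + 1) - Real.sqrt D) * (2 * Real.sqrt D)) := by
        have h5 : (y' - y) * (2 * D) = (y' - y) * (2 * (Real.sqrt D * Real.sqrt D)) := by rw [h2]
        rw [h5, hy, hy']
        ring
      rw [h4]
      calc π * x * Real.sqrt D * ((Real.sqrt ((D : ℝ) + 1) - Real.sqrt D) * (2 * Real.sqrt D))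
          ≤ π * x * Real.sqrt D * 1 := mul_le_mul_of_nonneg_left h1 hy0.le
        _ = y := by rw [mul_one]
    rw [le_div_iff₀ (by positivity)]
    exact h3
  -- the pointwise bound
  have hwy : w = (3 / π) * y := by
    rw [hw, hy]
    field_simp
  have hpt : ∀ u ∈ Ioi (0 : ℝ), Real.exp (-(y * Real.cosh u)) - Real.exp (-(y' * Real.cosh u)) ≤
      1 / (2 * D * (1 - 3 / π)) * Real.exp (-(w * Real.cosh u)) := by
    intro u _
    have hc : 0 < Real.cosh u := Real.cosh_pos u
    set z := y * Real.cosh u with hz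
    have hz0 : 0 < z := by positivity
    have h1 : 1 - Real.exp (-((y' - y) * Real.cosh u)) ≤ (y' - y) * Real.cosh u := by
      have := Real.add_one_le_exp (-((y' - y) * Real.cosh u))
      linarith
    have h2 : (y' - y) * Real.cosh u ≤ z / (2 * D) := by
      have := mul_le_mul_of_nonneg_right hdiff hc.le
      calc (y' - y) * Real.cosh u ≤ y / (2 * D) * Real.cosh u := this
        _ = z / (2 * D) := by rw [hz]; ring
    have h3 : (1 - 3 / π) * z ≤ Real.exp ((1 - 3 / π) * z) := by
      have := Real.add_one_le_exp ((1 - 3 / π) * z)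
      linarith
    have h4 : Real.exp (-(y' * Real.cosh u)) =
        Real.exp (-z) * Real.exp (-((y' - y) * Real.cosh u)) := by
      rw [← Real.exp_add, hz]
      congr 1
      ring
    have h5 : Real.exp (-(w * Real.cosh u)) = Real.exp (-z) * Real.exp ((1 - 3 / π) * z) := by
      rw [← Real.exp_add, hwy, hz]
      congr 1
      ring
    rw [h4, h5]
    have h6 : z ≤ 1 / (1 - 3 / π) * Real.exp ((1 - 3 / π) * z) := by
      rw [one_div, inv_mul_eq_div, le_div_iff₀ hδ, mul_comm]
      exact h3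
    have h7 : 1 - Real.exp (-((y' - y) * Real.cosh u)) ≤
        1 / (2 * D) * (1 / (1 - 3 / π) * Real.exp ((1 - 3 / π) * z)) := by
      refine h1.trans (h2.trans ?_)
      rw [div_eq_mul_one_div, mul_comm]
      exact mul_le_mul_of_nonneg_left h6 (by positivity)
    calc Real.exp (-z) - Real.exp (-z) * Real.exp (-((y' - y) * Real.cosh u))
        = Real.exp (-z) * (1 - Real.exp (-((y' - y) * Real.cosh u))) := by ring
      _ ≤ Real.exp (-z) * (1 / (2 * D) * (1 / (1 - 3 / π) * Real.exp ((1 - 3 / π) * z))) :=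
          mul_le_mul_of_nonneg_left h7 (Real.exp_pos _).le
      _ = 1 / (2 * D * (1 - 3 / π)) * (Real.exp (-z) * Real.exp ((1 - 3 / π) * z)) := by
          field_simp
  have hint : k0 y - k0 y' ≤ 1 / (2 * D * (1 - 3 / π)) * k0 w := by
    unfold k0
    rw [← integral_sub hi hi', ← integral_const_mul]
    exact setIntegral_mono_on (hi.sub hi') (hiw.const_mul _) measurableSet_Ioi hpt
  have habs : |k0 y' - k0 y| = k0 y - k0 y' := by
    rw [abs_sub_comm, abs_of_nonneg]
    linarith [hmono y' hyy]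
  rw [habs]
  refine hint.trans ?_
  have hsx : 0 < Real.sqrt (x * Real.sqrt D) := Real.sqrt_pos.2 (by positivity)
  have h8 : 1 / Real.sqrt w ≤ 1 / Real.sqrt (x * Real.sqrt D) := by
    apply one_div_le_one_div_of_le hsx
    apply Real.sqrt_le_sqrt
    rw [hw]
    nlinarith [mul_pos hx hs]
  have h9 : k0 w ≤ 2 * (1 / Real.sqrt (x * Real.sqrt D)) * Real.exp (-w) := by
    refine hbw.trans ?_
    apply mul_le_mul_of_nonneg_right _ (Real.exp_pos _).le
    rw [div_eq_mul_one_div]
    exact mul_le_mul_of_nonneg_left h8 (by norm_num)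
  calc 1 / (2 * D * (1 - 3 / π)) * k0 w
      ≤ 1 / (2 * D * (1 - 3 / π)) * (2 * (1 / Real.sqrt (x * Real.sqrt D)) * Real.exp (-w)) :=
        mul_le_mul_of_nonneg_left h9 (by positivity)
    _ = 1 / (1 - 3 / π) / D * (1 / Real.sqrt (x * Real.sqrt D)) * Real.exp (-(3 * x * Real.sqrt D)) := by
        rw [← hw]
        field_simp

end Pool.Agent.H59.AD
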