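import Pool.Agent.H95.AD.TargetsU

/-!
# LSB: the large sieve for a block of moduli (board adu_modules)
-/

set_option autoImplicit false

open MeasureTheory Set Filter
open scoped Real

namespace Pool.Agent.H59.AD

open Pool.Agent.H31.CN Pool.Agent.H95.AD

theorem pf_LSB (hSPC : T_SPC) (hDLS : T_DLS) : T_LSB := by
  obtain ⟨C, hC, h⟩ := hDLS
  refine ⟨16 * C, by positivity, ?_⟩
  intro a d Q Y c ha hd hQ hY
  have hQ' : (1 : ℝ) ≤ Q := by exact_mod_cast hQ
  have ha' : (1 : ℝ) ≤ a := by exact_mod_cast ha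
  have hd' : (1 : ℝ) ≤ d := by exact_mod_cast hd
  have hY' : (1 : ℝ) ≤ Y := by exact_mod_cast hY
  have hδ : (0 : ℝ) < (d : ℝ) * a / (16 * (Q : ℝ) ^ 2) := by positivity
  have key := h (Σ _ : ℕ, ℕ)
    (((Finset.Ico Q (2 * Q)).filter (fun A => a ∣ A)).sigma
      (fun A => (Finset.range (4 * A)).filter (fun k => Nat.gcd k A = d)))
    (fun i => (i.2 : ℝ) / (4 * i.1)) (fun i => c i.1 i.2) ((d : ℝ) * a / (16 * (Q : ℝ) ^ 2))
    Y (2 * Y) hδ (by omega) (by
      rintro ⟨A, k⟩ hi ⟨A', k'⟩ hj hne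
      simp only [Finset.mem_sigma, Finset.mem_filter, Finset.mem_Ico, Finset.mem_range] at hi hj
      obtain ⟨⟨⟨hA1, hA2⟩, hA3⟩, hk1, hk2⟩ := hi
      obtain ⟨⟨⟨hA1', hA2'⟩, hA3'⟩, hk1', hk2'⟩ := hj
      have h1 := hSPC a d A A' k k' ha hd (by omega) (by omega) hA3 hA3' hk2 hk2' hk1 hk1' (by
        intro he
        apply hne
        obtain ⟨rfl, rfl⟩ := Prod.mk.inj he
        rfl)
      refine le_trans ?_ h1
      have hA : (1 : ℝ) ≤ A := by exact_mod_cast (show 1 ≤ A by omega)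
      have hA' : (1 : ℝ) ≤ A' := by exact_mod_cast (show 1 ≤ A' by omega)
      have hAQ : (A : ℝ) ≤ 2 * Q := by exact_mod_cast hA2.le
      have hAQ' : (A' : ℝ) ≤ 2 * Q := by exact_mod_cast hA2'.le
      apply div_le_div_of_nonneg_left (by positivity) (by positivity)
      nlinarith [mul_le_mul hAQ hAQ' (by positivity) (by positivity)])
  simp only [Finset.sum_sigma] at key
  have h2 : ∀ (A k D : ℕ), (k : ℝ) / (4 * (A : ℝ)) * (D : ℝ) = (k : ℝ) * D / (4 * A) :=
    fun A k D => div_mul_eq_mul_div _ _ _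
  simp only [h2] at key
  refine key.trans ?_
  apply mul_le_mul_of_nonneg_right
  · have h3 : (((2 * Y : ℕ) : ℝ) - Y) = Y := by
      push_cast
      ring
    rw [h3, one_div_div]
    have h4 : 16 * (Q : ℝ) ^ 2 / ((d : ℝ) * a) = 16 * ((Q : ℝ) ^ 2 / ((d : ℝ) * a)) := by ring
    rw [h4]
    have h5 : 0 ≤ (Q : ℝ) ^ 2 / ((d : ℝ) * a) := by positivity
    nlinarith
  · exact Finset.sum_nonneg fun _ _ => Finset.sum_nonneg fun _ _ => by positivity

end Pool.Agent.H59.AD
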