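import Pool.Agent.H65.AD.TargetsB
import Pool.Agent.H39.CN.QUA

/-!
# QU2: the polynomial functional on a product, bounded (board adm_modules)
-/

set_option autoImplicit false

open MeasureTheory Set Filter
open scoped Real

namespace Pool.Agent.H59.AD

open Pool.Agent.H31.CN Pool.Agent.H95.AD Pool.Agent.H65.AD Pool.Agent.H39.CN

theorem cv_bound {A B : ℝ} {f g : ℕ → ℕ → ℝ} (hA : 0 ≤ A) (hB : 0 ≤ B)
    (hf : ∀ i j, i + j ≤ 3 → |f i j| ≤ A) (hg : ∀ i j, i + j ≤ 3 → |g i j| ≤ B) :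
    ∀ i j, i + j ≤ 3 → |cv f g i j| ≤ 8 * (A * B) := by
  intro i j hij
  have hpow : (2 : ℝ) ^ (i + j) ≤ 8 := by
    calc (2 : ℝ) ^ (i + j) ≤ 2 ^ 3 := pow_le_pow_right₀ (by norm_num) hij
      _ = 8 := by norm_num
  have hP : 0 ≤ A * B := by positivity
  unfold cv
  calc _ ≤ ∑ a ∈ Finset.range (i + 1), ∑ b ∈ Finset.range (j + 1),
        (i.choose a : ℝ) * (j.choose b) * (A * B) := by
        refine (Finset.abs_sum_le_sum_abs _ _).trans (Finset.sum_le_sum fun a ha => ?_)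
        refine (Finset.abs_sum_le_sum_abs _ _).trans (Finset.sum_le_sum fun b hb => ?_)
        rw [abs_mul, abs_of_nonneg (by positivity : (0 : ℝ) ≤ (i.choose a : ℝ) * (j.choose b))]
        rw [Finset.mem_range] at ha hb
        refine mul_le_mul_of_nonneg_left ?_ (by positivity)
        rw [abs_mul]
        exact mul_le_mul (hf a b (by omega)) (hg (i - a) (j - b) (by omega)) (abs_nonneg _) hA
    _ = 2 ^ (i + j) * (A * B) := by
        simp_rw [← Finset.sum_mul]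
        rw [choose_sum]
    _ ≤ 8 * (A * B) := mul_le_mul_of_nonneg_right hpow hP

theorem abs7 {y0 y1 y2 y3 y4 y5 y6 s0 s1 s2 s3 s4 s5 s6 : ℝ} (h0 : |y0| ≤ s0) (h1 : |y1| ≤ s1)
    (h2 : |y2| ≤ s2) (h3 : |y3| ≤ s3) (h4 : |y4| ≤ s4) (h5 : |y5| ≤ s5) (h6 : |y6| ≤ s6) :
    |y0 + y1 + y2 + y3 + y4 + y5 + y6| ≤ s0 + s1 + s2 + s3 + s4 + s5 + s6 := by
  rw [abs_le] at *
  constructor
  · linarith [h0.1, h1.1, h2.1, h3.1, h4.1, h5.1, h6.1]
  · linarith [h0.2, h1.2, h2.2, h3.2, h4.2, h5.2, h6.2]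

/-- the coefficients of the functional -/
noncomputable def co (a₁ a₀ b₂ b₁ b₀ x ε : ℝ) : ℝ :=
  |(x + c0 * ε) * (x ^ 2 * (1 / 4) + a₁ * x * ε + a₀ * ε ^ 2) -
            (x ^ 3 * (1 / 12) + b₂ * x ^ 2 * ε + b₁ * x * ε ^ 2 + b₀ * ε ^ 3)| +
  |x ^ 2 * (1 / 4) + a₁ * x * ε + a₀ * ε ^ 2| +
  |x ^ 2 * -(1 / 4) + (2 * b₂ - a₁ - c0 / 2) * x * ε + (b₁ - a₁ * c0) * ε ^ 2| +
  |x * (1 / 2) + a₁ * ε| + |(c0 / 4 - b₂) * ε| + |(-(1 / 4) : ℝ)| + |(1 / 12 : ℝ)|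

theorem co_bound (a₁ a₀ b₂ b₁ b₀ K : ℝ) : ∃ C : ℝ, 0 < C ∧ ∀ x ε : ℝ, |x| ≤ K → 0 ≤ ε → ε ≤ 2 →
    co a₁ a₀ b₂ b₁ b₀ x ε ≤ C := by
  have hc : ContinuousOn (fun p : ℝ × ℝ => co a₁ a₀ b₂ b₁ b₀ p.1 p.2)
      (Icc (-K) K ×ˢ Icc (0 : ℝ) 2) := by
    unfold co
    fun_prop
  obtain ⟨C, hC⟩ := (isCompact_Icc.prod isCompact_Icc).exists_bound_of_continuousOn hc
  refine ⟨max C 1, lt_max_of_lt_right one_pos, fun x ε hx h0 h2 => ?_⟩
  have h1 := hC (x, ε) ⟨abs_le.1 hx, h0, h2⟩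
  exact ((le_abs_self _).trans h1).trans (le_max_left _ _)

theorem pf_QU2 (hMOM : T_MOM) : T_QU2 := by
  intro a₁ a₀ b₂ b₁ b₀ K hK
  obtain ⟨Ch, hCh, hCh'⟩ := co_bound a₁ a₀ b₂ b₁ b₀ K
  refine ⟨16384 * K * Ch, by positivity, ?_⟩
  intro g Et B₁ B₂ l lam d b V hl hlam hd hb hg hEt hB₁ hB₂
  have hl0 : 0 < l := by linarith
  set ε : ℝ := l⁻¹ with hε
  have hε0 : 0 < ε := by positivity
  have hε2 : ε ≤ 2 := by
    rw [hε, inv_le_comm₀ hl0 (by norm_num)]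
    linarith
  have hlε : l * ε = 1 := mul_inv_cancel₀ hl0.ne'
  have hd0 : 0 < d := by linarith
  have hV : 0 ≤ V := (abs_nonneg _).trans (hg 0 0 (by norm_num))
  have hε8 : ∀ n : ℕ, n ≤ 3 → ε ^ n ≤ 8 := by
    intro n hn
    calc ε ^ n ≤ 2 ^ n := pow_le_pow_left₀ hε0.le hε2 n
      _ ≤ 2 ^ 3 := pow_le_pow_right₀ (by norm_num) hn
      _ = 8 := by norm_num
  -- the families
  have f1 : ∀ i j, i + j ≤ 3 → |nm ε g i j| ≤ |mo 0 0 g| + 4 * ε * V := by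
    intro i j hij
    unfold nm
    by_cases h0 : i = 0 ∧ j = 0
    · obtain ⟨rfl, rfl⟩ := h0
      simp only [add_zero, pow_zero, one_mul]
      have : 0 ≤ 4 * ε * V := by positivity
      linarith
    · rw [abs_mul, abs_of_nonneg (by positivity)]
      have h2 : ε ^ (i + j) ≤ 4 * ε := by
        obtain ⟨k, hk'⟩ : ∃ k, i + j = k + 1 := ⟨i + j - 1, by
          have : 1 ≤ i + j := by
            by_contra hcon
            exact h0 ⟨by omega, by omega⟩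
          omega⟩
        rw [hk', pow_succ]
        apply mul_le_mul_of_nonneg_right _ hε0.le
        calc ε ^ k ≤ 2 ^ k := pow_le_pow_left₀ hε0.le hε2 k
          _ ≤ 2 ^ 2 := pow_le_pow_right₀ (by norm_num) (by omega)
          _ = 4 := by norm_num
      have h3 : ε ^ (i + j) * |mo i j g| ≤ 4 * ε * V :=
        mul_le_mul h2 (hg i j hij) (abs_nonneg _) (by positivity)
      have := abs_nonneg (mo 0 0 g)
      linarith
  have f2 : ∀ i j, i + j ≤ 3 → |nm ε Et i j| ≤ 8 * (K / d) := by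
    intro i j hij
    unfold nm
    rw [abs_mul, abs_of_nonneg (by positivity)]
    exact mul_le_mul (hε8 _ hij) (hEt i j hij) (abs_nonneg _) (by norm_num)
  have fB : ∀ B : GR, (∀ i j, i + j ≤ 3 → |mo i j B| ≤ b * l ^ ((i : ℤ) + j - 2)) →
      ∀ i j, i + j ≤ 3 → |(fun i j => l ^ 2 * nm ε B i j) i j| ≤ b := by
    intro B hB i j hij
    show |l ^ 2 * nm ε B i j| ≤ b
    unfold nm
    rw [abs_mul, abs_mul, abs_of_nonneg (by positivity : (0 : ℝ) ≤ l ^ 2),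
      abs_of_nonneg (by positivity : (0 : ℝ) ≤ ε ^ (i + j))]
    have h1 : l ^ 2 * (ε ^ (i + j) * (b * l ^ ((i : ℤ) + j - 2))) = b := by
      have h2 : (l ^ 2 : ℝ) * (ε ^ (i + j) * l ^ ((i : ℤ) + j - 2)) = 1 := by
        have e1 : (l ^ 2 : ℝ) = l ^ (2 : ℤ) := by norm_cast
        have e2 : ε ^ (i + j) = l ^ (-((i : ℤ) + j)) := by
          rw [hε, inv_pow, zpow_neg]
          congr 1
        rw [e1, e2, ← zpow_add₀ hl0.ne', ← zpow_add₀ hl0.ne']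
        have : (2 : ℤ) + (-((i : ℤ) + j) + ((i : ℤ) + j - 2)) = 0 := by ring
        rw [this, zpow_zero]
      calc l ^ 2 * (ε ^ (i + j) * (b * l ^ ((i : ℤ) + j - 2))) =
          b * (l ^ 2 * (ε ^ (i + j) * l ^ ((i : ℤ) + j - 2))) := by ring
        _ = b := by rw [h2, mul_one]
    calc l ^ 2 * (ε ^ (i + j) * |mo i j B|) ≤
        l ^ 2 * (ε ^ (i + j) * (b * l ^ ((i : ℤ) + j - 2))) := by
          refine mul_le_mul_of_nonneg_left (mul_le_mul_of_nonneg_left (hB i j hij) ?_) ?_ <;>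
            positivity
      _ = b := h1
  have hG : 0 ≤ |mo 0 0 g| + 4 * ε * V := by positivity
  have hKd : 0 ≤ 8 * (K / d) := by positivity
  have f4 := cv_bound hb hb (fB B₁ hB₁) (fB B₂ hB₂)
  have f5 := cv_bound hKd (by positivity) f2 f4
  have f6 := cv_bound hG (by positivity) f1 f5
  set F := cv (nm ε g) (cv (nm ε Et) (cv (fun i j => l ^ 2 * nm ε B₁ i j)
    (fun i j => l ^ 2 * nm ε B₂ i j))) with hF
  have hFnm : F = fun i j => l ^ 4 * nm ε (g * (Et * (B₁ * B₂))) i j := by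
    rw [hF, nm_mul hMOM, nm_mul hMOM, nm_mul hMOM, cv_smul]
    have e1 : ∀ f g : ℕ → ℕ → ℝ, cv f (fun i j => l ^ 2 * l ^ 2 * g i j) =
        fun i j => l ^ 4 * cv f g i j := by
      intro f g
      have := cv_smul 1 (l ^ 2 * l ^ 2) f g
      simp only [one_mul] at this
      rw [this]
      funext i j
      ring
    rw [e1]
    have e2 : ∀ f g : ℕ → ℕ → ℝ, cv f (fun i j => l ^ 4 * g i j) =
        fun i j => l ^ 4 * cv f g i j := by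
      intro f g
      have := cv_smul 1 (l ^ 4) f g
      simp only [one_mul] at this
      rw [this]
    rw [e2]
  set x : ℝ := lam * ε with hx
  have hxK : |x| ≤ K := by
    rw [hx, abs_mul, abs_of_pos hε0]
    calc |lam| * ε ≤ (K * l) * ε := mul_le_mul_of_nonneg_right hlam hε0.le
      _ = K := by rw [mul_assoc, hlε, mul_one]
  have hlin : lin (fun v => PP a₁ a₀ b₂ b₁ b₀ (lam - v.1) (lam - v.2)) (g * (Et * (B₁ * B₂))) =
      ε * (((x + c0 * ε) * (x ^ 2 * (1 / 4) + a₁ * x * ε + a₀ * ε ^ 2) -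
            (x ^ 3 * (1 / 12) + b₂ * x ^ 2 * ε + b₁ * x * ε ^ 2 + b₀ * ε ^ 3)) * F 0 0 +
        -(x ^ 2 * (1 / 4) + a₁ * x * ε + a₀ * ε ^ 2) * F 1 0 +
        (x ^ 2 * -(1 / 4) + (2 * b₂ - a₁ - c0 / 2) * x * ε + (b₁ - a₁ * c0) * ε ^ 2) * F 0 1 +
        (x * (1 / 2) + a₁ * ε) * F 1 1 + (c0 / 4 - b₂) * ε * F 0 2 + -(1 / 4) * F 1 2 +
        1 / 12 * F 0 3) := by
    rw [lin_PP, hFnm]
    simp only [nm]
    have hl' : l = ε⁻¹ := by rw [hε, inv_inv]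
    rw [hx, hl']
    field_simp
    ring
  set S : ℝ := 8 * ((|mo 0 0 g| + 4 * ε * V) * (8 * (8 * (K / d) * (8 * (b * b))))) with hS
  have hS0 : 0 ≤ S := by positivity
  have pr : ∀ (y : ℝ) (i j : ℕ), i + j ≤ 3 → |y * F i j| ≤ |y| * S := by
    intro y i j hij
    rw [abs_mul]
    exact mul_le_mul_of_nonneg_left (f6 i j hij) (abs_nonneg _)
  have hsum : |((x + c0 * ε) * (x ^ 2 * (1 / 4) + a₁ * x * ε + a₀ * ε ^ 2) -
            (x ^ 3 * (1 / 12) + b₂ * x ^ 2 * ε + b₁ * x * ε ^ 2 + b₀ * ε ^ 3)) * F 0 0 +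
        -(x ^ 2 * (1 / 4) + a₁ * x * ε + a₀ * ε ^ 2) * F 1 0 +
        (x ^ 2 * -(1 / 4) + (2 * b₂ - a₁ - c0 / 2) * x * ε + (b₁ - a₁ * c0) * ε ^ 2) * F 0 1 +
        (x * (1 / 2) + a₁ * ε) * F 1 1 + (c0 / 4 - b₂) * ε * F 0 2 + -(1 / 4) * F 1 2 +
        1 / 12 * F 0 3| ≤ co a₁ a₀ b₂ b₁ b₀ x ε * S := by
    have q0 := pr ((x + c0 * ε) * (x ^ 2 * (1 / 4) + a₁ * x * ε + a₀ * ε ^ 2) -
            (x ^ 3 * (1 / 12) + b₂ * x ^ 2 * ε + b₁ * x * ε ^ 2 + b₀ * ε ^ 3)) 0 0 (by norm_num)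
    have q1 := pr (-(x ^ 2 * (1 / 4) + a₁ * x * ε + a₀ * ε ^ 2)) 1 0 (by norm_num)
    have q2 := pr (x ^ 2 * -(1 / 4) + (2 * b₂ - a₁ - c0 / 2) * x * ε + (b₁ - a₁ * c0) * ε ^ 2)
      0 1 (by norm_num)
    have q3 := pr (x * (1 / 2) + a₁ * ε) 1 1 (by norm_num)
    have q4 := pr ((c0 / 4 - b₂) * ε) 0 2 (by norm_num)
    have q5 := pr (-(1 / 4)) 1 2 (by norm_num)
    have q6 := pr (1 / 12) 0 3 (by norm_num)
    rw [abs_neg (x ^ 2 * (1 / 4) + a₁ * x * ε + a₀ * ε ^ 2)] at q1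
    refine (abs7 q0 q1 q2 q3 q4 q5 q6).trans (le_of_eq ?_)
    unfold co
    ring
  have e1 : l ^ (-1 : ℤ) = ε := by rw [zpow_neg_one]
  have e2 : l ^ (-2 : ℤ) = ε ^ 2 := by
    rw [hε, inv_pow, zpow_neg]
    congr 1
  rw [hlin, e1, e2, abs_mul, abs_of_pos hε0]
  have hm0 := abs_nonneg (mo 0 0 g)
  calc _ ≤ ε * (Ch * S) := mul_le_mul_of_nonneg_left
        (hsum.trans (mul_le_mul_of_nonneg_right (hCh' x ε hxK hε0.le hε2) hS0)) hε0.le
    _ = 4096 * K * Ch * b ^ 2 / d * (|mo 0 0 g| * ε + 4 * (V * ε ^ 2)) := by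
        rw [hS]
        ring
    _ ≤ 4096 * K * Ch * b ^ 2 / d * (4 * (|mo 0 0 g| * ε + V * ε ^ 2)) := by
        apply mul_le_mul_of_nonneg_left _ (by positivity)
        nlinarith [mul_nonneg hm0 hε0.le]
    _ = 16384 * K * Ch * b ^ 2 / d * (|mo 0 0 g| * ε + V * ε ^ 2) := by ring

end Pool.Agent.H59.AD
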